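import Mathlib
import Pool.Agent.H409Z.WbDefs
import Pool.Agent.H409Z.WbFinal

set_option autoImplicit false

open Pool.Agent.H409Z.Wb

namespace Pool.Agent.Results.MP_684c87_al.NotSL

/-- There is a finitely generated amenable group with a weakly branch action on a locally finite
rooted spherically homogeneous tree, and a symmetric finitely supported probability measure on it,
whose support generates it as a semigroup, with a bounded non-constant harmonic function. -/
theorem result : ∃ (X : ℕ → Type) (G : Type) (_ : Group G) (φ : G →* Equiv.Perm (Vtx X)),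
    (∀ i, Finite (X i) ∧ Nontrivial (X i)) ∧ IsWeaklyBranch φ ∧ Group.FG G ∧ IsAmenable G ∧
    ∃ μ : G →₀ ℝ, (∀ g, 0 ≤ μ g) ∧ (μ.sum fun _ w => w) = 1 ∧ (∀ g, μ g⁻¹ = μ g) ∧
      Subsemigroup.closure (μ.support : Set G) = ⊤ ∧
      ∃ f : G → ℝ, (∃ C : ℝ, ∀ g, |f g| ≤ C) ∧ (∀ g, f g = μ.sum fun h w => w * f (g * h)) ∧
        ∃ a b : G, f a ≠ f b :=
  main_wb

end Pool.Agent.Results.MP_684c87_al.NotSL
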